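import Pool.Agent.Helper28.PR.AB1
import Pool.Agent.Helper43.PR.TK9
import Pool.Agent.Helper78.PR.TK11
import Pool.Agent.Helper65.PR.TK4A
import Pool.Agent.Helper26.PR.TK6

/-! AB7: type I maps for the products `TS`, `STS` -/

set_option autoImplicit false

namespace PR

open ContinuousLinearMap

section ab

variable {X : Type*} [NormedAddCommGroup X] [NormedSpace ℂ X] [CompleteSpace X]
variable {Y : Type*} [NormedAddCommGroup Y] [NormedSpace ℂ Y] [CompleteSpace Y]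

namespace AB7Aux

open AB1Aux

/-- the statement of `rec_ab`, to be used as a hypothesis -/
def RecAB (n : ℕ) (X : Type*) [NormedAddCommGroup X] [NormedSpace ℂ X] : Prop :=
  ∀ {A B : X →L[ℂ] X}, LPab n A B →
    ∃ (x y : X) (f g : X →L[ℂ] ℂ), x ≠ 0 ∧ y ≠ 0 ∧ f ≠ 0 ∧ g ≠ 0 ∧ A = rk x f ∧ B = rk y g ∧
      (((∃ c : ℂ, y = c • x) ∧ LinearIndependent ℂ ![f, g]) ∨
        (LinearIndependent ℂ ![x, y] ∧ (∃ c : ℂ, g = c • f)))

theorem ne_of_eq_smul {V : Type*} [AddCommGroup V] [Module ℂ V] {g f : V} {d : ℂ} (hg : g ≠ 0)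
    (hd : g = d • f) : d ≠ 0 := by
  rintro rfl
  rw [zero_smul] at hd
  exact hg hd

theorem eq_inv_smul {V : Type*} [AddCommGroup V] [Module ℂ V] {g f f1 : V} {c d : ℂ} (hc : c ≠ 0)
    (hd : d ≠ 0) (h1 : f1 = c • g) (h2 : g = d • f) : f = (c * d)⁻¹ • f1 := by
  rw [h1, h2, smul_smul, smul_smul, mul_assoc, inv_mul_cancel₀ (mul_ne_zero hc hd), one_smul]

theorem par_of_dep {V : Type*} [AddCommGroup V] [Module ℂ V] {u v : V} (hv : v ≠ 0)
    (hi : ¬ LinearIndependent ℂ ![u, v]) : ∃ c : ℂ, u = c • v := by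
  rw [LinearIndependent.pair_iff] at hi
  push Not at hi
  obtain ⟨a, b, hab, hab'⟩ := hi
  have ha : a ≠ 0 := by
    rintro rfl
    rw [zero_smul, zero_add] at hab
    rcases smul_eq_zero.1 hab with h1 | h1
    · exact hab' rfl h1
    · exact hv h1
  refine ⟨-(a⁻¹ * b), ?_⟩
  have h1 : a • u = -(b • v) := eq_neg_of_add_eq_zero_left hab
  calc u = a⁻¹ • (a • u) := by rw [smul_smul, inv_mul_cancel₀ ha, one_smul]
    _ = _ := by rw [h1, smul_neg, smul_smul, neg_smul]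

theorem zero_of_tests {n : ℕ} (hn : n = 1 ∨ n = 2) {A : X →L[ℂ] X}
    (h : ∀ S, sr (A * S ^ n) = 0) : A = 0 := by
  ext y
  by_contra hy
  have hy0 : y ≠ 0 := by
    rintro rfl
    exact hy (by simp)
  obtain ⟨e, he1, he2⟩ := exists_both hy0 hy
  obtain ⟨S, hS⟩ := exists_pow hn he1
  have h1 := h S
  rw [hS, sr_mul_rk, norm_eq_zero] at h1
  exact he2 h1

omit [CompleteSpace X] in
theorem exists_ne {f : X →L[ℂ] ℂ} (hf : f ≠ 0) : ∃ x, f x ≠ 0 := by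
  by_contra h
  push Not at h
  exact hf (by ext x; simpa using h x)

omit [CompleteSpace X] in
theorem rk_ne_zero {x : X} {f : X →L[ℂ] ℂ} (hx : x ≠ 0) (hf : f ≠ 0) : rk x f ≠ 0 := by
  obtain ⟨z, hz⟩ := exists_ne hf
  intro h
  have h1 := congrArg (fun T : X →L[ℂ] X => T z) h
  simp only [rk_apply, _root_.zero_apply] at h1
  rcases smul_eq_zero.1 h1 with h2 | h2
  · exact hz h2
  · exact hx h2

omit [CompleteSpace X] in
/-- equality of rank one operators -/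
theorem rk_eq {x y : X} {f g : X →L[ℂ] ℂ} (hx : x ≠ 0) (hf : f ≠ 0)
    (h : rk x f = rk y g) : ∃ c : ℂ, c ≠ 0 ∧ x = c • y ∧ g = c • f := by
  obtain ⟨z, hz⟩ := exists_ne hf
  have h1 : f z • x = g z • y := by
    have := congrArg (fun T : X →L[ℂ] X => T z) h
    simpa only [rk_apply] using this
  have hgz : g z ≠ 0 := by
    intro h2
    rw [h2, zero_smul] at h1
    rcases smul_eq_zero.1 h1 with h3 | h3
    · exact hz h3
    · exact hx h3
  have h2 : x = ((f z)⁻¹ * g z) • y := by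
    rw [mul_smul, ← h1, smul_smul, inv_mul_cancel₀ hz, one_smul]
  have hy : y ≠ 0 := by
    rintro rfl
    rw [smul_zero] at h2
    exact hx h2
  refine ⟨(f z)⁻¹ * g z, mul_ne_zero (inv_ne_zero hz) hgz, h2, ?_⟩
  ext w
  have h3 : f w • x = g w • y := by
    have := congrArg (fun T : X →L[ℂ] X => T w) h
    simpa only [rk_apply] using this
  rw [h2, smul_smul] at h3
  have h4 := smul_left_injective ℂ hy h3
  simp only [_root_.smul_apply, smul_eq_mul]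
  rw [← h4]
  ring

omit [CompleteSpace X] in
theorem rk_smul_left (c : ℂ) (x : X) (f : X →L[ℂ] ℂ) : rk (c • x) f = rk x (c • f) := by
  ext z
  simp only [rk_apply, _root_.smul_apply, smul_smul, smul_eq_mul, mul_comm]

omit [CompleteSpace X] in
theorem rk_smul_right (c : ℂ) (x : X) (f : X →L[ℂ] ℂ) : rk x (c • f) = c • rk x f := by
  ext z
  simp only [rk_apply, _root_.smul_apply, smul_smul, smul_eq_mul]

omit [CompleteSpace X] in
/-- consequence of the recognition theorem -/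
theorem rec_cases {n : ℕ} (hrec : RecAB n X) {T : X →L[ℂ] X} {x1 : X}
    {f1 : X →L[ℂ] ℂ} (h : LPab n T (rk x1 f1)) :
    ∃ (x : X) (f : X →L[ℂ] ℂ), x ≠ 0 ∧ f ≠ 0 ∧ T = rk x f ∧
      ((∃ c : ℂ, c ≠ 0 ∧ x = c • x1) ∨ (∃ c : ℂ, c ≠ 0 ∧ f = c • f1)) := by
  obtain ⟨x, y, f, g, hx, hy, hf, hg, h1, h2, h3⟩ := hrec h
  obtain ⟨c, hc, hc1, hc2⟩ := rk_eq hy hg h2.symm
  refine ⟨x, f, hx, hf, h1, ?_⟩
  rcases h3 with ⟨⟨d, hd⟩, -⟩ | ⟨-, ⟨d, hd⟩⟩
  · left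
    -- y = c • x1, y = d • x
    have hd0 : d ≠ 0 := ne_of_eq_smul hy hd
    refine ⟨d⁻¹ * c, mul_ne_zero (inv_ne_zero hd0) hc, ?_⟩
    rw [mul_smul, ← hc1, hd, smul_smul, inv_mul_cancel₀ hd0, one_smul]
  · right
    -- f1 = c • g, g = d • f
    have hd0 : d ≠ 0 := ne_of_eq_smul hg hd
    have h5 : f = (c * d)⁻¹ • f1 := eq_inv_smul (V := X →L[ℂ] ℂ) hc hd0 hc2 hd
    exact ⟨(c * d)⁻¹, inv_ne_zero (mul_ne_zero hc hd0), h5⟩

theorem sr_rk_mul (x : X) (f : X →L[ℂ] ℂ) (T : X →L[ℂ] X) : sr (rk x f * T) = ‖f (T x)‖ := by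
  rw [sr_comm, sr_mul_rk]

theorem sr_rk_mul_pow {n : ℕ} (hn : n = 1 ∨ n = 2) (x w : X) (f e : X →L[ℂ] ℂ) :
    sr (rk x f * rk w e ^ n) = ‖e x‖ * ‖e w‖ ^ (n - 1) * ‖f w‖ := by
  rw [sr_rk_mul, rk_pow_apply hn, map_smul, smul_eq_mul, norm_mul, norm_mul, norm_pow]

theorem sr_mul_rk_pow {n : ℕ} (hn : n = 1 ∨ n = 2) (T : X →L[ℂ] X) (w : X) (e : X →L[ℂ] ℂ) :
    sr (T * rk w e ^ n) = ‖e w‖ ^ (n - 1) * ‖e (T w)‖ := by
  rcases hn with rfl | rfl
  · rw [pow_one, sr_mul_rk]; simp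
  · rw [pow_two, rk_sq, mul_smul_comm, sr_smul, sr_mul_rk]
    simp

omit [CompleteSpace X] in
theorem dense_ne {f : X →L[ℂ] ℂ} (hf : f ≠ 0) : Dense {x : X | f x ≠ 0} := by
  have h1 : Dense ({(0 : ℂ)}ᶜ : Set ℂ) := dense_compl_singleton 0
  exact h1.preimage (f.isOpenMap_of_ne_zero hf)

theorem map_eq_zero_iff {n : ℕ} (hn : n = 1 ∨ n = 2)
    {φ : (X →L[ℂ] X) → (Y →L[ℂ] Y)}
    (h : ∀ T S, sr (φ T * φ S ^ n) = sr (T * S ^ n)) {T : X →L[ℂ] X} (hT : φ T = 0) : T = 0 := by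
  refine zero_of_tests hn fun S => ?_
  rw [← h T S, hT, zero_mul, sr_zero]

/-- phase hypothesis of Wigner's theorem -/
theorem phase_hyp {n : ℕ} (hn : n = 1 ∨ n = 2)
    {φ : (X →L[ℂ] X) → (Y →L[ℂ] Y)} (hs : Function.Surjective φ)
    (h : ∀ T S, sr (φ T * φ S ^ n) = sr (T * S ^ n))
    {f0 : X →L[ℂ] ℂ} {k0 : Y →L[ℂ] ℂ} {π : X → Y} (hk0 : k0 ≠ 0)
    (hπ : ∀ x, φ (rk x f0) = rk (π x) k0) (g : Y →L[ℂ] ℂ) :
    ∃ F : X →L[ℂ] ℂ, ∀ x, ‖g (π x)‖ = ‖F x‖ := by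
  by_cases hg : g = 0
  · refine ⟨0, fun x => ?_⟩
    simp [hg]
  · obtain ⟨y1, hy1⟩ := exists_ne hk0
    obtain ⟨y2, hy2⟩ := exists_ne hg
    obtain ⟨y, hy, hy'⟩ : ∃ y, k0 y ≠ 0 ∧ g y ≠ 0 := by
      by_cases h3 : g y1 = 0
      · by_cases h4 : k0 y2 = 0
        · refine ⟨y1 + y2, ?_, ?_⟩
          · rw [map_add, h4, add_zero]; exact hy1
          · rw [map_add, h3, zero_add]; exact hy2
        · exact ⟨y2, h4, hy2⟩
      · exact ⟨y1, hy1, h3⟩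
    obtain ⟨S', hS'⟩ := exists_pow hn hy'
    obtain ⟨S, hS⟩ := hs S'
    refine ⟨(k0 y)⁻¹ • (f0.comp (S ^ n)), fun x => ?_⟩
    have h1 := h (rk x f0) S
    rw [hπ, hS, hS', sr_rk_mul, sr_rk_mul] at h1
    simp only [rk_apply, map_smul, smul_eq_mul, norm_mul] at h1
    have h2 : ‖k0 y‖ ≠ 0 := norm_ne_zero_iff.2 hy
    have h3 : ‖((k0 y)⁻¹ • (f0.comp (S ^ n))) x‖ = ‖k0 y‖⁻¹ * ‖f0 ((S ^ n) x)‖ := by
      simp
    rw [h3, ← h1]
    field_simp

/-- the core argument, linear or conjugate linear -/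
theorem core {σ : ℂ →+* ℂ} [RingHomInvPair σ σ] [RingHomIsometric σ]
    {n : ℕ} (hn : n = 1 ∨ n = 2) (hX : Dim2 X) (hrX : RecAB n X) (hrY : RecAB n Y)
    {φ : (X →L[ℂ] X) → (Y →L[ℂ] Y)} (hs : Function.Surjective φ)
    (h : ∀ T S, sr (φ T * φ S ^ n) = sr (T * S ^ n))
    {f0 : X →L[ℂ] ℂ} {k0 : Y →L[ℂ] ℂ} {π : X → Y} (hf0 : f0 ≠ 0) (hk0 : k0 ≠ 0)
    (hπ : ∀ x, φ (rk x f0) = rk (π x) k0)
    (A : X →ₛₗ[σ] Y) (hA : ∀ v, ∃ θ : ℂ, ‖θ‖ = 1 ∧ π v = θ • A v) :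
    ∃ A : X ≃SL[σ] Y, ∀ T, ∃ c : ℂ, ‖c‖ = 1 ∧ ∀ y, φ T y = c • A (T (A.symm y)) := by
  have hσ : ∀ z : ℂ, σ (σ z) = z := fun z => RingHomInvPair.comp_apply_eq (σ := σ) (σ' := σ)
  have hσn : ∀ z : ℂ, ‖σ z‖ = ‖z‖ := fun z => RingHomIsometric.norm_map
  -- injectivity
  have hπ0 : ∀ v, v ≠ 0 → π v ≠ 0 := by
    intro v hv hv'
    have h1 : φ (rk v f0) = 0 := by
      rw [hπ, hv']
      ext z
      simp
    exact rk_ne_zero hv hf0 (map_eq_zero_iff hn h h1)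
  have hinj : Function.Injective A := by
    rw [injective_iff_map_eq_zero]
    intro v hv
    by_contra hv'
    obtain ⟨θ, -, hθ⟩ := hA v
    rw [hv, smul_zero] at hθ
    exact hπ0 v hv' hθ
  have hA0 : ∀ v, v ≠ 0 → A v ≠ 0 := fun v hv h1 => hv (hinj (by rw [h1, map_zero]))
  -- parallel to values of `A`
  have hpar : ∀ (u : Y) (v : X) (c : ℂ), u = c • π v → ∃ w, A w = u := by
    intro u v c hu
    obtain ⟨θ, -, hθ⟩ := hA v
    refine ⟨(σ (c * θ)) • v, ?_⟩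
    rw [map_smulₛₗ, hσ, hu, hθ, smul_smul]
  -- surjectivity
  obtain ⟨e, he⟩ := hX
  have hsurj : Function.Surjective A := by
    intro u
    by_cases hu : u = 0
    · exact ⟨0, by rw [map_zero, hu]⟩
    obtain ⟨T, hT⟩ := hs (rk u k0)
    have hcase : ∀ x1 : X, x1 ≠ 0 → (∃ w, A w = u) ∨
        ∃ (x : X) (f : X →L[ℂ] ℂ), x ≠ 0 ∧ f ≠ 0 ∧ T = rk x f ∧
          ((∃ c : ℂ, c ≠ 0 ∧ x = c • x1) ∨ (∃ c : ℂ, c ≠ 0 ∧ f = c • f0)) := by
      intro x1 hx1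
      by_cases hi : LinearIndependent ℂ ![u, π x1]
      · right
        have h1 := lpab_right hn hi hk0
        rw [← hπ, ← hT, ← lpab_map hs h] at h1
        exact rec_cases hrX h1
      · left
        obtain ⟨c, hc⟩ := par_of_dep (hπ0 x1 hx1) hi
        exact hpar u x1 c hc
    have hend : ∀ (x : X) (c : ℂ), T = rk x (c • f0) → ∃ w, A w = u := by
      intro x c hT'
      rw [← rk_smul_left] at hT'
      rw [hT', hπ] at hT
      have h1 : u = π (c • x) := by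
        obtain ⟨z, hz⟩ := exists_ne hk0
        have := congrArg (fun T : Y →L[ℂ] Y => T z) hT
        simp only [rk_apply] at this
        exact (smul_right_injective Y hz this).symm
      exact hpar u (c • x) 1 (by rw [one_smul, h1])
    have he0 : e 0 ≠ 0 := he.ne_zero 0
    have he1 : e 1 ≠ 0 := he.ne_zero 1
    rcases hcase (e 0) he0 with h1 | ⟨x, f, hx, hf, hT1, h2⟩
    · exact h1
    rcases h2 with ⟨c, hc, h2⟩ | ⟨c, hc, h2⟩
    swap
    · exact hend x c (by rw [hT1, h2])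
    rcases hcase (e 1) he1 with h1 | ⟨x', f', hx', hf', hT2, h3⟩
    · exact h1
    rcases h3 with ⟨c', hc', h3⟩ | ⟨c', hc', h3⟩
    swap
    · exact hend x' c' (by rw [hT2, h3])
    exfalso
    have h4 : rk x f = rk x' f' := by rw [← hT1, hT2]
    obtain ⟨d, hd, h5, -⟩ := rk_eq hx hf h4
    rw [h2, h3, smul_smul] at h5
    have h6 : LinearIndependent ℂ ![e 0, e 1] := by
      convert he
      ext i
      fin_cases i <;> rfl
    rw [LinearIndependent.pair_iff] at h6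
    have h7 := h6 c (-(d * c')) (by rw [h5, neg_smul, add_neg_cancel])
    exact hc h7.1
  -- boundedness
  have hbd : ∃ C : ℝ, ∀ x : X, ‖x‖ ≤ 1 → ‖A x‖ ≤ C := by
    have h1 : ∀ g : Y →L[ℂ] ℂ, ∃ C, ∀ i : {x : X // ‖x‖ ≤ 1},
        ‖(NormedSpace.inclusionInDoubleDual ℂ Y (A i)) g‖ ≤ C := by
      intro g
      obtain ⟨F, hF⟩ := phase_hyp hn hs h hk0 hπ g
      refine ⟨‖F‖, fun i => ?_⟩
      rw [NormedSpace.dual_def]
      obtain ⟨θ, hθ, hθ'⟩ := hA i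
      have h2 : ‖g (A i)‖ = ‖g (π i)‖ := by
        rw [hθ', map_smul, norm_smul, hθ, one_mul]
      rw [h2, hF]
      refine (F.le_opNorm _).trans ?_
      calc ‖F‖ * ‖(i : X)‖ ≤ ‖F‖ * 1 := mul_le_mul_of_nonneg_left i.2 (norm_nonneg _)
        _ = ‖F‖ := mul_one _
    obtain ⟨C, hC⟩ := banach_steinhaus h1
    refine ⟨C, fun x hx => ?_⟩
    have h2 := hC ⟨x, hx⟩
    have h3 : ‖NormedSpace.inclusionInDoubleDual ℂ Y (A x)‖ = ‖A x‖ :=
      (NormedSpace.inclusionInDoubleDualLi ℂ (E := Y)).norm_map (A x)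
    rwa [h3] at h2
  obtain ⟨C, hC⟩ := hbd
  have hbd' : ∀ x : X, ‖A x‖ ≤ C * ‖x‖ := by
    intro x
    by_cases hx : x = 0
    · simp [hx]
    have hx' : ‖x‖ ≠ 0 := norm_ne_zero_iff.2 hx
    have h1 := hC (((‖x‖⁻¹ : ℝ) : ℂ) • x) (by
      rw [norm_smul, Complex.norm_real, norm_inv, norm_norm, inv_mul_cancel₀ hx'])
    rw [map_smulₛₗ, norm_smul, hσn, Complex.norm_real, norm_inv, norm_norm] at h1
    have h2 : 0 < ‖x‖ := norm_pos_iff.2 hx
    calc ‖A x‖ = (‖x‖⁻¹ * ‖A x‖) * ‖x‖ := by field_simp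
      _ ≤ C * ‖x‖ := mul_le_mul_of_nonneg_right h1 h2.le
  let Ac : X →SL[σ] Y := A.mkContinuous C hbd'
  let Ae : X ≃SL[σ] Y := ContinuousLinearEquiv.ofBijective Ac
    (LinearMap.ker_eq_bot.2 hinj) (LinearMap.range_eq_top.2 hsurj)
  have hAe : ∀ x, Ae x = A x := fun x => rfl
  have hcont : Continuous (fun x => A x) := Ac.continuous
  -- norms of `k0 (A x)`
  have hk : ∀ x, ‖k0 (π x)‖ = ‖f0 x‖ := by
    intro x
    have h1 := h (rk x f0) (rk x f0)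
    rw [hπ, sr_rk_mul_pow hn, sr_rk_mul_pow hn] at h1
    rcases hn with rfl | rfl
    · simp only [le_refl, tsub_eq_zero_of_le, pow_zero, mul_one] at h1
      exact (mul_self_inj (norm_nonneg _) (norm_nonneg _)).1 h1
    · have h2 : ‖k0 (π x)‖ ^ 3 = ‖f0 x‖ ^ 3 := by
        norm_num at h1
        calc ‖k0 (π x)‖ ^ 3 = ‖k0 (π x)‖ * ‖k0 (π x)‖ * ‖k0 (π x)‖ := by ring
          _ = _ := by rw [h1]; ring
      exact (pow_left_inj₀ (norm_nonneg _) (norm_nonneg _) (by norm_num)).1 h2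
  have hπA : ∀ (g : Y →L[ℂ] ℂ) x, ‖g (π x)‖ = ‖g (A x)‖ := by
    intro g x
    obtain ⟨θ, hθ, hθ'⟩ := hA x
    rw [hθ', map_smul, norm_smul, hθ, one_mul]
  have hkA : ∀ x, ‖k0 (A x)‖ = ‖f0 x‖ := fun x => by rw [← hπA, hk]
  -- images of rank one operators
  have himg : ∀ (x : X) (f : X →L[ℂ] ℂ), x ≠ 0 → ∃ l : Y →L[ℂ] ℂ, φ (rk x f) = rk (A x) l := by
    intro x f hx
    by_cases hi : LinearIndependent ℂ ![f, f0]
    · have h1 := lpab_left hn hx hi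
      rw [lpab_map hs h, hπ] at h1
      obtain ⟨u, l, hu, hl, h2, h3⟩ := rec_cases hrY h1
      rcases h3 with ⟨c, hc, h3⟩ | ⟨c, hc, h3⟩
      · obtain ⟨θ, hθ, hθ'⟩ := hA x
        refine ⟨(c * θ) • l, ?_⟩
        rw [h2, h3, hθ', smul_smul, rk_smul_left]
      · exfalso
        obtain ⟨x'', hx''⟩ := hsurj (c • u)
        have hφ : φ (rk x f) = rk (A x'') k0 := by
          rw [h2, h3, hx'', rk_smul_left]
        have htest : ∀ S : X →L[ℂ] X, ‖f ((S ^ n) x)‖ = ‖f0 ((S ^ n) x'')‖ := by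
          intro S
          rw [← sr_rk_mul, ← sr_rk_mul, ← h, ← h, hφ, hπ, sr_rk_mul, sr_rk_mul]
          obtain ⟨θ, hθ, hθ'⟩ := hA x''
          rw [hθ', map_smul, map_smul, norm_smul, hθ, one_mul]
        obtain ⟨y, hy⟩ := exists_vec_fin hi ![1, 0]
        have hy1 : f y = 1 := by simpa using hy 0
        have hy2 : f0 y = 0 := by simpa using hy 1
        have hy0 : y ≠ 0 := by
          rintro rfl
          simp at hy1
        obtain ⟨g, hg1, hg2⟩ := exists_both hx hy0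
        obtain ⟨S, hS⟩ := exists_pow hn hg2
        have h4 := htest S
        rw [hS] at h4
        simp only [rk_apply, map_smul, hy1, hy2, smul_eq_mul, mul_one, mul_zero, norm_zero] at h4
        exact hg1 (norm_eq_zero.1 h4)
    · obtain ⟨c, h1⟩ := par_of_dep hf0 hi
      obtain ⟨θ, hθ, hθ'⟩ := hA (c • x)
      refine ⟨(θ * σ c) • k0, ?_⟩
      rw [h1, ← rk_smul_left, hπ, hθ', map_smulₛₗ, smul_smul, rk_smul_left]
  -- moduli
  have hmod0 : ∀ (x : X) (f : X →L[ℂ] ℂ) (l : Y →L[ℂ] ℂ), φ (rk x f) = rk (A x) l →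
      (∀ x', f0 x' ≠ 0 → ‖l (A x')‖ = ‖f x'‖) → ∀ x', ‖l (A x')‖ = ‖f x'‖ := by
    intro x f l _ h1 x'
    have h2 : (fun x' => ‖l (A x')‖) = fun x' => ‖f x'‖ := by
      refine Continuous.ext_on (dense_ne hf0) ?_ ?_ (fun x' hx' => h1 x' hx')
      · exact (l.continuous.comp hcont).norm
      · exact f.continuous.norm
    exact congrFun h2 x'
  have hmod1 : ∀ (x : X) (f : X →L[ℂ] ℂ) (l : Y →L[ℂ] ℂ), f0 x ≠ 0 → φ (rk x f) = rk (A x) l →
      ∀ x', ‖l (A x')‖ = ‖f x'‖ := by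
    intro x f l hx hl
    refine hmod0 x f l hl fun x' hx' => ?_
    have h1 := h (rk x f) (rk x' f0)
    rw [hl, hπ, sr_rk_mul_pow hn, sr_rk_mul_pow hn, hkA, hk, hπA] at h1
    have h2 : ‖f0 x‖ * ‖f0 x'‖ ^ (n - 1) ≠ 0 :=
      mul_ne_zero (norm_ne_zero_iff.2 hx) (pow_ne_zero _ (norm_ne_zero_iff.2 hx'))
    exact mul_left_cancel₀ h2 h1
  have hmod : ∀ (x : X) (f : X →L[ℂ] ℂ) (l : Y →L[ℂ] ℂ), x ≠ 0 → φ (rk x f) = rk (A x) l →
      ∀ x', ‖l (A x')‖ = ‖f x'‖ := by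
    intro x f l hx hl
    refine hmod0 x f l hl fun x' hx' => ?_
    have hx'0 : x' ≠ 0 := by
      rintro rfl
      simp at hx'
    obtain ⟨f', hf1, hf2⟩ := exists_both hx hx'0
    obtain ⟨l', hl'⟩ := himg x' f' hx'0
    have h3 := hmod1 x' f' l' hx' hl'
    have h1 := h (rk x f) (rk x' f')
    rw [hl, hl', sr_rk_mul_pow hn, sr_rk_mul_pow hn, h3, h3] at h1
    have h2 : ‖f' x‖ * ‖f' x'‖ ^ (n - 1) ≠ 0 :=
      mul_ne_zero (norm_ne_zero_iff.2 hf1) (pow_ne_zero _ (norm_ne_zero_iff.2 hf2))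
    exact mul_left_cancel₀ h2 h1
  -- general operators
  refine ⟨Ae, fun T => ?_⟩
  let T' : X →L[ℂ] X := (Ae.symm : Y →SL[σ] X).comp ((φ T).comp (Ae : X →SL[σ] Y))
  have hT' : ∀ x, A (T' x) = φ T (A x) := by
    intro x
    change Ae (Ae.symm (φ T (Ae x))) = φ T (A x)
    rw [Ae.apply_symm_apply]
    rfl
  have htest : ∀ (x : X) (f : X →L[ℂ] ℂ), ‖f (T' x)‖ = ‖f (T x)‖ := by
    intro x f
    by_cases hf : f = 0
    · simp [hf]
    have h2 : (fun x => ‖f (T' x)‖) = fun x => ‖f (T x)‖ := by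
      refine Continuous.ext_on (dense_ne hf) ?_ ?_ (fun x hx => ?_)
      · exact (f.continuous.comp T'.continuous).norm
      · exact (f.continuous.comp T.continuous).norm
      · have hx0 : x ≠ 0 := by
          rintro rfl
          simp at hx
        obtain ⟨l, hl⟩ := himg x f hx0
        have h3 := hmod x f l hx0 hl
        have h1 := h T (rk x f)
        rw [hl, sr_mul_rk_pow hn, sr_mul_rk_pow hn, h3, ← hT', h3] at h1
        exact mul_left_cancel₀ (pow_ne_zero _ (norm_ne_zero_iff.2 hx)) h1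
    exact congrFun h2 x
  have hfin : ∃ c : ℂ, ‖c‖ = 1 ∧ T' = c • T := by
    obtain ⟨c, μ, hc, hcμ⟩ := flag_test T T' (fun x f _ => htest x f)
    by_cases hsc : ∃ t : ℂ, T = t • (1 : X →L[ℂ] X)
    · obtain ⟨t, ht⟩ := hsc
      have he0 : e 0 ≠ 0 := he.ne_zero 0
      obtain ⟨f, hf⟩ := exists_one he0
      have h1 := htest (e 0) f
      have h2 : T' = (c * t + μ) • (1 : X →L[ℂ] X) := by
        rw [hcμ, ht, smul_smul, add_smul]
      rw [h2, ht] at h1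
      simp only [_root_.smul_apply, one_apply_eq_self, map_smul, hf,
        smul_eq_mul, mul_one] at h1
      by_cases ht0 : t = 0
      · refine ⟨1, norm_one, ?_⟩
        rw [ht0, norm_zero, norm_eq_zero] at h1
        rw [h2, ht, ht0, h1, zero_smul, smul_zero]
      · refine ⟨(c * t + μ) / t, ?_, ?_⟩
        · rw [norm_div, h1, div_self (norm_ne_zero_iff.2 ht0)]
        · rw [h2, ht, smul_smul, div_mul_cancel₀ _ ht0]
    · have h1 : ∃ x, ∀ c : ℂ, T x ≠ c • x := by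
        by_contra h1
        push Not at h1
        exact hsc (scalar_of_eigen_all T h1)
      obtain ⟨x, hx⟩ := h1
      have hx0 : x ≠ 0 := by
        rintro rfl
        exact hx 0 (by simp)
      obtain ⟨f, hf1, hf2⟩ := TK11.exists_sep (T x) x (fun c hc' => by
        have hc0 : c ≠ 0 := by
          rintro rfl
          rw [zero_smul] at hc'
          exact hx0 hc'
        refine hx c⁻¹ ?_
        conv_rhs => rw [hc']
        rw [smul_smul, inv_mul_cancel₀ hc0, one_smul])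
      have h2 := htest x f
      rw [hcμ] at h2
      simp only [_root_.add_apply, _root_.smul_apply,
        one_apply_eq_self, map_add, map_smul, hf1, hf2, mul_zero, zero_add,
        smul_eq_mul, mul_one, norm_zero] at h2
      refine ⟨c, hc, ?_⟩
      rw [hcμ, norm_eq_zero.1 h2, zero_smul, add_zero]
  obtain ⟨c, hc, hc'⟩ := hfin
  refine ⟨σ c, by rw [hσn, hc], fun y => ?_⟩
  have h1 : φ T y = A (T' (Ae.symm y)) := by
    rw [hT', ← hAe, Ae.apply_symm_apply]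
  rw [h1, hc', _root_.smul_apply, map_smulₛₗ, hAe]

end AB7Aux

/-- AB7 with the recognition theorem as a hypothesis -/
theorem ab_typeI_of_rec {n : ℕ} (hn : n = 1 ∨ n = 2) (hX : Dim2 X)
    (hrX : AB7Aux.RecAB n X) (hrY : AB7Aux.RecAB n Y)
    {φ : (X →L[ℂ] X) → (Y →L[ℂ] Y)} (hs : Function.Surjective φ)
    (h : ∀ T S, sr (φ T * φ S ^ n) = sr (T * S ^ n))
    (h1 : ∃ (f0 : X →L[ℂ] ℂ) (k0 : Y →L[ℂ] ℂ) (π : X → Y), f0 ≠ 0 ∧ k0 ≠ 0 ∧
      ∀ x, φ (rk x f0) = rk (π x) k0) :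
    ∃ c : (X →L[ℂ] X) → ℂ, (∀ T, ‖c T‖ = 1) ∧ FormI c (fun _ => 0) φ := by
  obtain ⟨f0, k0, π, hf0, hk0, hπ⟩ := h1
  have hV : ∃ v w : X, LinearIndependent ℂ ![v, w] := by
    obtain ⟨e, he⟩ := hX
    refine ⟨e 0, e 1, ?_⟩
    convert he
    ext i
    fin_cases i <;> rfl
  have h0 : ∀ v, v ≠ 0 → π v ≠ 0 := by
    intro v hv hv'
    have h1 : φ (rk v f0) = 0 := by
      rw [hπ, hv']
      ext z
      simp
    exact AB7Aux.rk_ne_zero hv hf0 (AB7Aux.map_eq_zero_iff hn h h1)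
  have hph : ∀ (g : Y →L[ℂ] ℂ) (v w : X), ∃ a b : ℂ, ‖g (π v)‖ = ‖a‖ ∧ ‖g (π w)‖ = ‖b‖ ∧
      ∀ s : ℂ, ‖g (π (v + s • w))‖ = ‖a + s * b‖ := by
    intro g v w
    obtain ⟨F, hF⟩ := AB7Aux.phase_hyp hn hs h hk0 hπ g
    refine ⟨F v, F w, hF v, hF w, fun s => ?_⟩
    rw [hF, map_add, map_smul, smul_eq_mul]
  rcases wigner_pairing π hV h0 hph with ⟨A, hA⟩ | ⟨A, hA⟩
  · obtain ⟨A', hA'⟩ := AB7Aux.core hn hX hrX hrY hs h hf0 hk0 hπ A hA
    choose c hc1 hc2 using hA'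
    refine ⟨c, hc1, Or.inl ⟨A', fun T y => ?_⟩⟩
    rw [hc2, zero_smul, add_zero]
  · obtain ⟨A', hA'⟩ := AB7Aux.core hn hX hrX hrY hs h hf0 hk0 hπ A hA
    choose c hc1 hc2 using hA'
    refine ⟨c, hc1, Or.inr ⟨A', fun T y => ?_⟩⟩
    rw [hc2, zero_smul, add_zero]

end ab

end PR
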